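import Pool.Agent.Helper17.RZ.Defs2

/-!
# Project RZ, module A10: no point on the conic over the fixed field
-/

set_option autoImplicit false

open MvPolynomial

namespace Pool.Agent.Helper54.RZ

open Pool.Agent.Helper17.RZ

universe u

section

variable {k : Type u} [Field k]

theorem sb_X (e : Fin 4 → Bool × Bool) (s : Fin 4) (j : Bool) :
    sb k e (X (s, j)) =
      (if (e s).2 && (xor (e s).1 j) then (-1 : SS k) else 1) * X (s, xor (e s).1 j) := by
  simp [sb]

/-- the sign change on factor 3 -/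
noncomputable def cc (k : Type u) [Field k] : SS k →ₐ[k] SS k :=
  aeval (fun sj : Fin 4 × Bool => (if sj.1 = 3 then (-1 : SS k) else 1) * X sj)

theorem cc_X (s : Fin 4) (j : Bool) :
    cc k (X (s, j)) = (if s = 3 then (-1 : SS k) else 1) * X (s, j) := by
  simp [cc]

theorem rel02 : (sb k (code 0)).comp (sb k (code 2)) =
    (cc k).comp ((sb k (code 2)).comp (sb k (code 0))) := by
  apply MvPolynomial.algHom_ext
  rintro ⟨s, j⟩
  fin_cases s <;> cases j <;> simp [sb_X, cc_X, code]

theorem rel13 : (sb k (code 1)).comp (sb k (code 3)) =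
    (cc k).comp ((sb k (code 3)).comp (sb k (code 1))) := by
  apply MvPolynomial.algHom_ext
  rintro ⟨s, j⟩
  fin_cases s <;> cases j <;> simp [sb_X, cc_X, code]

theorem pow4 (i : Fin 4) (P : SS k) :
    sb k (code i) (sb k (code i) (sb k (code i) (sb k (code i) P))) = P := by
  have h : (sb k (code i)).comp ((sb k (code i)).comp ((sb k (code i)).comp (sb k (code i)))) =
      AlgHom.id k (SS k) := by
    apply MvPolynomial.algHom_ext
    rintro ⟨s, j⟩
    fin_cases i <;> fin_cases s <;> cases j <;> simp [sb_X, code]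
  exact DFunLike.congr_fun h P

/-- the substitution as a ring isomorphism -/
noncomputable def eqv (k : Type u) [Field k] (i : Fin 4) : SS k ≃ₐ[k] SS k :=
  AlgEquiv.ofAlgHom (sb k (code i)) ((sb k (code i)).comp ((sb k (code i)).comp (sb k (code i))))
    (by ext1 sj; simpa using pow4 i (X sj)) (by ext1 sj; simpa using pow4 i (X sj))

theorem eqv_apply (i : Fin 4) (P : SS k) : eqv k i P = sb k (code i) P := rfl

theorem relPrime_sb (i : Fin 4) {P Q : SS k} (h : IsRelPrime P Q) :
    IsRelPrime (sb k (code i) P) (sb k (code i) Q) := by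
  intro d hP hQ
  have h1 : (eqv k i).symm d ∣ P := by
    have := map_dvd (eqv k i).symm hP
    rwa [← eqv_apply, AlgEquiv.symm_apply_apply] at this
  have h2 : (eqv k i).symm d ∣ Q := by
    have := map_dvd (eqv k i).symm hQ
    rwa [← eqv_apply, AlgEquiv.symm_apply_apply] at this
  have h3 := h h1 h2
  have := h3.map (eqv k i)
  rwa [AlgEquiv.apply_symm_apply] at this

/-- two coprime fractions with the same value differ by a constant -/
theorem coprime_eq {P Q P' Q' : SS k} (hQ : Q ≠ 0) (h : IsRelPrime P Q) (h' : IsRelPrime P' Q')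
    (he : P' * Q = P * Q') : ∃ c : k, c ≠ 0 ∧ P' = C c * P ∧ Q' = C c * Q := by
  have h1 : Q ∣ Q' := by
    apply IsRelPrime.dvd_of_dvd_mul_left h.symm
    exact ⟨P', by rw [← he, mul_comm]⟩
  have h2 : Q' ∣ Q := by
    apply IsRelPrime.dvd_of_dvd_mul_left h'.symm
    exact ⟨P, by rw [he, mul_comm]⟩
  obtain ⟨u, hu⟩ := associated_of_dvd_dvd h1 h2
  obtain ⟨c, hc, hcu⟩ := MvPolynomial.isUnit_iff_eq_C_of_isReduced.1 u.isUnit
  have hQ' : Q' = C c * Q := by rw [← hu, hcu, mul_comm]
  refine ⟨c, hc.ne_zero, ?_, hQ'⟩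
  have : Q * P' = Q * (C c * P) := by
    rw [mul_comm, he, hQ']; ring
  exact mul_left_cancel₀ hQ this

end

theorem noConic : NoConic.{u} := by
  intro k _ h2 γ hγ X Y W hX hY hW heq
  have hinj : Function.Injective (algebraMap (SS k) (LL k)) := IsFractionRing.injective _ _
  have twoS : (2 : SS k) ≠ 0 := by
    have : (2 : SS k) = C 2 := (map_ofNat C 2).symm
    rw [this, Ne, C_eq_zero]
    exact h2
  have two : (2 : LL k) ≠ 0 := by
    have : (2 : LL k) = algebraMap (SS k) (LL k) 2 := (map_ofNat _ 2).symm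
    rw [this, Ne, map_eq_zero_iff _ hinj]
    exact twoS
  have hx : ∀ s, xx k s ≠ 0 := fun s => by
    rw [xx, Ne, map_eq_zero_iff _ hinj]; exact X_ne_zero _
  have hy : ∀ s, yy k s ≠ 0 := fun s => by
    rw [yy, Ne, map_eq_zero_iff _ hinj]; exact X_ne_zero _
  have gx : ∀ i s a b, code i s = (a, b) → γ i (xx k s) =
      (if b && a then (-1 : LL k) else 1) * (if a then yy k s else xx k s) := by
    intro i s a b h
    rw [xx, hγ, sb_X, map_mul, h]
    cases a <;> cases b <;> simp [yy]
  have gy : ∀ i s a b, code i s = (a, b) → γ i (yy k s) =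
      (if b && !a then (-1 : LL k) else 1) * (if a then xx k s else yy k s) := by
    intro i s a b h
    rw [yy, hγ, sb_X, map_mul, h]
    cases a <;> cases b <;> simp [xx]
  have gtneg : ∀ i s, code i s = (true, true) → γ i (tt k s) = - tt k s := by
    intro i s h
    simp only [tt, map_div₀, map_add, map_mul, map_pow, gx i s _ _ h, gy i s _ _ h, map_ofNat]
    have := hx s
    have := hy s
    simp only [Bool.and_self, if_true, Bool.not_true, Bool.and_false, Bool.false_eq_true, if_false]
    field_simp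
    ring
  have gt1 : ∀ i s, code i s = (true, false) → γ i (tt k s) = tt k s := by
    intro i s h
    simp only [tt, map_div₀, map_add, map_mul, map_pow, gx i s _ _ h, gy i s _ _ h, map_ofNat]
    have := hx s
    have := hy s
    simp only [Bool.false_and, if_true, Bool.false_eq_true, if_false]
    field_simp
    ring
  have gt2 : ∀ i s, code i s = (false, false) → γ i (tt k s) = tt k s := by
    intro i s h
    simp only [tt, map_div₀, map_add, map_mul, map_pow, gx i s _ _ h, gy i s _ _ h, map_ofNat]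
    simp
  have t00 := gtneg 0 0 (by decide)
  have t01 := gt2 0 1 (by decide)
  have t10 := gt1 1 0 (by decide)
  have t11 := gt2 1 1 (by decide)
  have t20 := gt2 2 0 (by decide)
  have t21 := gtneg 2 1 (by decide)
  have t30 := gt2 3 0 (by decide)
  have t31 := gt1 3 1 (by decide)
  -- `t_s` does not vanish
  have htne : ∀ s, tt k s ≠ 0 := by
    intro s
    rw [tt, Ne, div_eq_zero_iff, not_or]
    refine ⟨?_, mul_ne_zero (mul_ne_zero two (hx s)) (hy s)⟩
    rw [xx, yy, ← map_pow, ← map_pow, ← map_add, map_eq_zero_iff _ hinj]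
    intro h0
    have h1 := congrArg (aeval (R := k) (fun sj : Fin 4 × Bool => if sj.2 then (0 : k) else 1)) h0
    simp at h1
  have c0 := htne 0
  have c1 := htne 1
  by_cases hW0 : W = 0
  · subst hW0
    have h1 : (X - tt k 0 * Y) * (X + tt k 0 * Y) = 0 := by linear_combination heq
    have h2 : tt k 0 * Y = 0 := by
      rcases mul_eq_zero.1 h1 with h | h
      · have h3 := congrArg (γ 0) h
        simp only [map_sub, map_mul, hX, hY, t00, map_zero] at h3
        have : 2 * (tt k 0 * Y) = 0 := by linear_combination h3 - h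
        exact (mul_eq_zero.1 this).resolve_left two
      · have h3 := congrArg (γ 0) h
        simp only [map_add, map_mul, hX, hY, t00, map_zero] at h3
        have : 2 * (tt k 0 * Y) = 0 := by linear_combination h - h3
        exact (mul_eq_zero.1 this).resolve_left two
    have hY0 : Y = 0 := (mul_eq_zero.1 h2).resolve_left c0
    subst hY0
    refine ⟨?_, rfl, rfl⟩
    simpa using heq
  exfalso
  have hd : tt k 1 * W ≠ 0 := mul_ne_zero c1 hW0
  obtain ⟨φ, hφ⟩ : ∃ φ, φ = (X + tt k 0 * Y) / (tt k 1 * W) := ⟨_, rfl⟩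
  obtain ⟨ψ, hψ⟩ : ∃ ψ, ψ = (X - tt k 0 * Y) / (tt k 1 * W) := ⟨_, rfl⟩
  have hφψ : φ * ψ = 1 := by
    rw [hφ, hψ]
    field_simp
    linear_combination heq
  have hφ0 : φ ≠ 0 := left_ne_zero_of_mul_eq_one hφψ
  have g0 : γ 0 φ = ψ := by
    rw [hφ, hψ, map_div₀, map_add, map_mul, map_mul, hX, hY, hW, t00, t01]; ring
  have g1 : γ 1 φ = φ := by
    rw [hφ, map_div₀, map_add, map_mul, map_mul, hX, hY, hW, t10, t11]
  have g2 : γ 2 φ = - φ := by
    rw [hφ, map_div₀, map_add, map_mul, map_mul, hX, hY, hW, t20, t21]; ring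
  have g3 : γ 3 φ = φ := by
    rw [hφ, map_div₀, map_add, map_mul, map_mul, hX, hY, hW, t30, t31]
  obtain ⟨P, Q, hPQ, hmk⟩ := IsFractionRing.exists_reduced_fraction (A := SS k) (K := LL k) φ
  obtain ⟨Q, hQmem⟩ := Q
  have hQ0 : Q ≠ 0 := nonZeroDivisors.ne_zero hQmem
  have hPQ' : IsRelPrime P Q := hPQ
  have hfr : φ = algebraMap (SS k) (LL k) P / algebraMap (SS k) (LL k) Q := by
    rw [← hmk, IsFractionRing.mk'_eq_div]
  have hQm : algebraMap (SS k) (LL k) Q ≠ 0 := by rwa [Ne, map_eq_zero_iff _ hinj]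
  have hP0 : P ≠ 0 := by
    rintro rfl
    apply hφ0; rw [hfr, map_zero, zero_div]
  have hPm : algebraMap (SS k) (LL k) P ≠ 0 := by rwa [Ne, map_eq_zero_iff _ hinj]
  have hinjG : ∀ i, Function.Injective (sb k (code i)) := fun i => (eqv k i).injective
  have hGQ : ∀ i, algebraMap (SS k) (LL k) (sb k (code i) Q) ≠ 0 := by
    intro i
    rw [Ne, map_eq_zero_iff _ hinj, map_eq_zero_iff _ (hinjG i)]
    exact hQ0
  have hγφ : ∀ i, γ i φ = algebraMap (SS k) (LL k) (sb k (code i) P) /
      algebraMap (SS k) (LL k) (sb k (code i) Q) := by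
    intro i
    rw [hfr, map_div₀, hγ, hγ]
  -- generators 1 and 3
  have key : ∀ i, γ i φ = φ → ∃ e : k, e ≠ 0 ∧ sb k (code i) P = C e * P ∧ sb k (code i) Q = C e * Q := by
    intro i h
    apply coprime_eq hQ0 hPQ' (relPrime_sb i hPQ')
    rw [hγφ, hfr, div_eq_div_iff (hGQ i) hQm, ← map_mul, ← map_mul] at h
    exact hinj h
  obtain ⟨e, he0, -, heQ⟩ := key 1 g1
  obtain ⟨f, hf0, -, hfQ⟩ := key 3 g3
  obtain ⟨b, hb0, hbP, hbQ⟩ : ∃ b : k, b ≠ 0 ∧ sb k (code 2) P = C b * P ∧
      sb k (code 2) Q = - (C b * Q) := by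
    have h1 : IsRelPrime (sb k (code 2) P) (- sb k (code 2) Q) :=
      (relPrime_sb 2 hPQ').neg_right
    obtain ⟨c, hc, h3, h4⟩ := coprime_eq (P' := sb k (code 2) P) (Q' := - sb k (code 2) Q) hQ0 hPQ' h1 (by
      have h := g2
      rw [hγφ, hfr, ← neg_div, div_eq_div_iff (hGQ 2) hQm, neg_mul, ← map_mul, ← map_mul, ← map_neg] at h
      rw [hinj h]; ring)
    exact ⟨c, hc, h3, by rw [← h4, neg_neg]⟩
  obtain ⟨a, ha0, haP, haQ⟩ : ∃ a : k, a ≠ 0 ∧ sb k (code 0) P = C a * Q ∧
      sb k (code 0) Q = C a * P := by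
    obtain ⟨c, hc, h3, h4⟩ := coprime_eq (P' := sb k (code 0) P) (Q' := sb k (code 0) Q) hP0 hPQ'.symm
      (relPrime_sb 0 hPQ') (by
      have h := g0
      have hψ' : ψ = algebraMap (SS k) (LL k) Q / algebraMap (SS k) (LL k) P := by
        have : ψ = φ⁻¹ := eq_inv_of_mul_eq_one_right hφψ
        rw [this, hfr, inv_div]
      rw [hγφ, hψ', div_eq_div_iff (hGQ 0) hPm, ← map_mul, ← map_mul] at h
      exact hinj h)
    exact ⟨c, hc, h3, h4⟩
  have hC : ∀ (g : SS k →ₐ[k] SS k) (c : k) (R : SS k), g (C c * R) = C c * g R := by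
    intro g c R
    rw [map_mul, ← algebraMap_eq, g.commutes]
  have r1 : cc k Q = Q := by
    have h := DFunLike.congr_fun (rel13 (k := k)) Q
    simp only [AlgHom.comp_apply] at h
    rw [hfQ, hC, heQ, hC, hfQ, hC, hC] at h
    have h5 : (C f * C e : SS k) ≠ 0 := mul_ne_zero (by simpa using hf0) (by simpa using he0)
    have h6 : (C f * C e) * Q = (C f * C e) * cc k Q := by linear_combination h
    exact (mul_left_cancel₀ h5 h6).symm
  have r2 : cc k Q = - Q := by
    have h := DFunLike.congr_fun (rel02 (k := k)) P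
    simp only [AlgHom.comp_apply] at h
    rw [hbP, hC, haP, hC, hbQ, hC, map_neg, hC] at h
    have h5 : (C b * C a : SS k) ≠ 0 := mul_ne_zero (by simpa using hb0) (by simpa using ha0)
    have h6 : (C b * C a) * cc k Q = (C b * C a) * (- Q) := by linear_combination h
    exact mul_left_cancel₀ h5 h6
  have h7 : (2 : SS k) * Q = 0 := by
    have : Q = - Q := r1.symm.trans r2
    linear_combination this
  exact hQ0 ((mul_eq_zero.1 h7).resolve_left twoS)

end Pool.Agent.Helper54.RZ
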