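import Pool.Agent.Helper17.RZ.St4

/-!
# Project RZ (MP_77656e_ag), module D2: the functions `b_s/a_s` define line bundles; their lattices
-/

set_option autoImplicit false

open MvPolynomial

namespace Pool.Agent.Helper54.RZ

open Pool.Agent.Helper17.RZ

universe u

noncomputable section

variable {k : Type u} [Field k]

theorem sb_lt (e : Fin 4 → Bool × Bool) (s : Fin 4) (c : Fin 5) :
    sb k e (lt k s c) = ((lsg (e s) c : ℤ) : SS k) * lt k s c := by
  rcases h : e s with ⟨a, b⟩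
  cases a <;> cases b <;> fin_cases c <;> simp [lt, lsg, sb_X, h] <;> ring

theorem sb_fw (a : Fin 4) (w : Fin 4 → Fin 5) (hw : Good w) : sb k (code a) (fw k w) = fw k w := by
  unfold fw
  rw [map_prod]
  have h1 : ∀ s, sb k (code a) (lt k s (w s)) = ((lsg (code a s) (w s) : ℤ) : SS k) * lt k s (w s) :=
    fun s => sb_lt _ s _
  rw [Finset.prod_congr rfl fun s _ => h1 s, Finset.prod_mul_distrib, ← Int.cast_prod, hw a]
  simp

theorem ga_K0 (a : Fin 4) (x : LL k) (hx : x ∈ K0 k) : ga k a x = x := by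
  refine IntermediateField.adjoin_induction k (p := fun x _ => ga k a x = x) ?_ ?_ ?_ ?_ ?_ hx
  · rintro x ⟨v, w, rfl⟩
    rw [map_div₀, ga_algebraMap, ga_algebraMap, sb_fw a v.1 v.2, sb_fw a w.1 w.2]
  · intro c; exact (ga k a).commutes c
  · intro x y _ _ h1 h2; rw [map_add, h1, h2]
  · intro x _ h1; rw [map_inv₀, h1]
  · intro x y _ _ h1 h2; rw [map_mul, h1, h2]

theorem al_mem_Dn (h g : SS k) : al k g ∈ Dn k h := ⟨0, g, by simp⟩

theorem inv_mem_Dn {h g : SS k} (M : ℕ) (hg : g ≠ 0) (hd : g ∣ h ^ M) : (al k g)⁻¹ ∈ Dn k h := by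
  obtain ⟨q, hq⟩ := hd
  refine ⟨M, q, ?_⟩
  have h0 := al_ne_zero k hg
  rw [← map_pow, hq, map_mul]
  field_simp

theorem lt0_dvd (s : Fin 4) (c : Fin 5) (hc : ¬ (c = 1 ∨ c = 4)) : lt k s 0 ∣ lt k s c ^ 2 := by
  fin_cases c
  · exact Dvd.intro _ (pow_two (lt k s 0)).symm
  · simp at hc
  · refine ⟨lt k s 1, ?_⟩
    simp [lt]; ring
  · refine ⟨(X (s, false) ^ 2 - X (s, true) ^ 2) ^ 2, ?_⟩
    simp [lt]; ring
  · simp at hc

theorem lt1_dvd (s : Fin 4) (c : Fin 5) (hc : c = 1 ∨ c = 4) : lt k s 1 ∣ lt k s c ^ 2 := by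
  rcases hc with rfl | rfl
  · exact Dvd.intro _ (pow_two (lt k s 1)).symm
  · refine ⟨(X (s, false) ^ 2 - X (s, true) ^ 2) ^ 2, ?_⟩
    simp [lt]; ring

theorem lt_dvd_fs (s : Fin 4) (v : GW) (σ : Finset GW) (hv : v ∈ σ) : lt k s (v.1 s) ∣ fs k σ :=
  (Finset.dvd_prod_of_mem (fun s => lt k s (v.1 s)) (Finset.mem_univ s)).trans
    (Finset.dvd_prod_of_mem (fun w : GW => fw k w.1) hv)

theorem inv_a_mem (s : Fin 4) (v : GW) (σ : Finset GW) (hv : v ∈ σ) (h : ¬ (v.1 s = 1 ∨ v.1 s = 4)) :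
    (al k (lt k s 0))⁻¹ ∈ Dn k (fs k σ) :=
  inv_mem_Dn 2 (lt_ne_zero k s 0) ((lt0_dvd s _ h).trans (pow_dvd_pow_of_dvd (lt_dvd_fs s v σ hv) 2))

theorem inv_b_mem (s : Fin 4) (v : GW) (σ : Finset GW) (hv : v ∈ σ) (h : v.1 s = 1 ∨ v.1 s = 4) :
    (al k (lt k s 1))⁻¹ ∈ Dn k (fs k σ) :=
  inv_mem_Dn 2 (lt_ne_zero k s 1) ((lt1_dvd s _ h).trans (pow_dvd_pow_of_dvd (lt_dvd_fs s v σ hv) 2))

theorem zpow_mem_Dn {h : SS k} {x : LL k} (hx : x ∈ Dn k h) (hx' : x⁻¹ ∈ Dn k h) (n : ℤ) :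
    x ^ n ∈ Dn k h := by
  cases n with
  | ofNat n => simpa using (Dn k h).pow_mem hx n
  | negSucc n =>
    rw [zpow_negSucc, ← inv_pow]
    exact (Dn k h).pow_mem hx' _

theorem lt_hom (s : Fin 4) (c : Fin 5) : IsWeightedHomogeneous wt (lt k s c) (Pi.single s 4) := by
  have hx : IsWeightedHomogeneous wt (X (s, false) : SS k) (Pi.single s 1) :=
    isWeightedHomogeneous_X k wt (s, false)
  have hy : IsWeightedHomogeneous wt (X (s, true) : SS k) (Pi.single s 1) :=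
    isWeightedHomogeneous_X k wt (s, true)
  have hp : IsWeightedHomogeneous wt (X (s, false) ^ 2 + X (s, true) ^ 2 : SS k) (2 • Pi.single s 1) :=
    (weightedHomogeneousSubmodule k wt _).add_mem (hx.pow 2) (hy.pow 2)
  have hm : IsWeightedHomogeneous wt (X (s, false) ^ 2 - X (s, true) ^ 2 : SS k) (2 • Pi.single s 1) :=
    (weightedHomogeneousSubmodule k wt _).sub_mem (hx.pow 2) (hy.pow 2)
  have e1 : (2 • (2 • Pi.single s 1) : Fin 4 → ℕ) = Pi.single s 4 := by
    funext j; by_cases h : j = s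
    · subst h; simp
    · simp [Pi.single_eq_of_ne h]
  have e2 : ((2 • Pi.single s 1) + (2 • Pi.single s 1) : Fin 4 → ℕ) = Pi.single s 4 := by
    funext j; by_cases h : j = s
    · subst h; simp
    · simp [Pi.single_eq_of_ne h]
  have e3 : ((2 • Pi.single s 1) + (Pi.single s 1 + Pi.single s 1) : Fin 4 → ℕ) = Pi.single s 4 := by
    funext j; by_cases h : j = s
    · subst h; simp
    · simp [Pi.single_eq_of_ne h]
  have e4 : ((Pi.single s 1 + Pi.single s 1) + (2 • Pi.single s 1) : Fin 4 → ℕ) = Pi.single s 4 := by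
    rw [add_comm]; exact e3
  fin_cases c
  · rw [← e1]; exact hp.pow 2
  · rw [← e2]; exact (hx.pow 2).mul (hy.pow 2)
  · rw [← e3]; exact hp.mul (hx.mul hy)
  · rw [← e2]; exact hp.mul hm
  · rw [← e4]; exact (hx.mul hy).mul hm

theorem HD_inv {d : Fin 4 → ℤ} {x : LL k} (hx : x ∈ HD k d) (h0 : x ≠ 0) : x⁻¹ ∈ HD k (fun s => - d s) := by
  obtain ⟨g, h, e, e', hh, hg1, hh1, hd, rfl⟩ := hx
  have hg0 : g ≠ 0 := by
    rintro rfl; simp at h0
  refine ⟨h, g, e', e, hg0, hh1, hg1, fun s => ?_, ?_⟩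
  · have := hd s
    dsimp only
    omega
  · rw [inv_div]

theorem HD_pow {d : Fin 4 → ℤ} {x : LL k} (hx : x ∈ HD k d) (n : ℕ) : x ^ n ∈ HD k (fun s => n * d s) := by
  induction n with
  | zero =>
    have := HD_one (k := k)
    simpa using this
  | succ n ih =>
    have h1 := HD_mul ih hx
    rw [pow_succ]
    have h2 : (fun s => (n : ℤ) * d s + d s) = fun s => ((n + 1 : ℕ) : ℤ) * d s := by
      funext s; push_cast; ring
    rw [h2] at h1; exact h1

theorem HD_zpow {d : Fin 4 → ℤ} {x : LL k} (hx : x ∈ HD k d) (h0 : x ≠ 0) (n : ℤ) :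
    x ^ n ∈ HD k (fun s => n * d s) := by
  cases n with
  | ofNat n => simpa using HD_pow hx n
  | negSucc n =>
    rw [zpow_negSucc]
    have h1 := HD_inv (HD_pow hx (n + 1)) (pow_ne_zero _ h0)
    have h2 : (fun s => -(((n + 1 : ℕ) : ℤ) * d s)) = fun s => Int.negSucc n * d s := by
      funext s; rw [Int.negSucc_eq]; push_cast; ring
    rw [h2] at h1; exact h1

theorem HD_prod {ι : Type*} (I : Finset ι) (x : ι → LL k) (d : ι → Fin 4 → ℤ)
    (h : ∀ i ∈ I, x i ∈ HD k (d i)) : ∏ i ∈ I, x i ∈ HD k (fun s => ∑ i ∈ I, d i s) := by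
  classical
  induction I using Finset.induction_on with
  | empty => simpa using HD_one (k := k)
  | insert a I ha ih =>
    rw [Finset.prod_insert ha]
    have h1 := HD_mul (h a (Finset.mem_insert_self _ _)) (ih fun i hi => h i (Finset.mem_insert_of_mem hi))
    have h2 : (fun s => d a s + ∑ i ∈ I, d i s) = fun s => ∑ i ∈ insert a I, d i s := by
      funext s; rw [Finset.sum_insert ha]
    rw [h2] at h1; exact h1

theorem al_lt_HD (s : Fin 4) (c : Fin 5) : al k (lt k s c) ∈ HD k (fun j => (Pi.single s 4 : Fin 4 → ℤ) j) := by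
  refine ⟨lt k s c, 1, Pi.single s 4, 0, one_ne_zero, lt_hom s c, isWeightedHomogeneous_one k wt,
    fun j => ?_, by simp⟩
  by_cases h : j = s
  · subst h; simp
  · simp [Pi.single_eq_of_ne h]

theorem bet_coe (s : Fin 4) : (bet k s : LL k) = al k (lt k s 1) / al k (lt k s 0) := by
  unfold bet
  rw [aa_div]
  have h0 : fw k w0.1 = lt k s 0 * ∏ j ∈ Finset.univ.erase s, lt k j 0 :=
    (Finset.mul_prod_erase Finset.univ (fun j => lt k j 0) (Finset.mem_univ s)).symm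
  have h1 : fw k (w1 s).1 = lt k s 1 * ∏ j ∈ Finset.univ.erase s, lt k j 0 := by
    have h2 := (Finset.mul_prod_erase Finset.univ (fun j => lt k j ((w1 s).1 j)) (Finset.mem_univ s)).symm
    have h3 : (w1 s).1 s = 1 := by
      change Function.update (fun _ : Fin 4 => (0 : Fin 5)) s 1 s = 1
      exact Function.update_self _ _ _
    have h4 : ∏ j ∈ Finset.univ.erase s, lt k j ((w1 s).1 j) = ∏ j ∈ Finset.univ.erase s, lt k j 0 := by
      refine Finset.prod_congr rfl fun j hj => ?_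
      have : (w1 s).1 j = 0 := by
        change Function.update (fun _ : Fin 4 => (0 : Fin 5)) s 1 j = 0
        exact Function.update_of_ne (Finset.ne_of_mem_erase hj) _ _
      rw [this]
    rw [h4] at h2
    simp only [h3] at h2
    exact h2
  have h5 : al k (∏ j ∈ Finset.univ.erase s, lt k j 0) ≠ 0 :=
    al_ne_zero k (Finset.prod_ne_zero_iff.mpr fun j _ => lt_ne_zero k j 0)
  rw [h0, h1]
  simp only [al, map_mul] at h5 ⊢
  rw [mul_div_mul_right _ _ h5]

/-- the invertible letter on a chart -/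
def ccw (k : Type u) [Field k] (w : GW) (s : Fin 4) : LL k :=
  if w.1 s = 1 ∨ w.1 s = 4 then al k (lt k s 1) else al k (lt k s 0)

theorem cc_ne (w : GW) (s : Fin 4) : ccw k w s ≠ 0 := by
  unfold ccw; split
  · exact al_ne_zero k (lt_ne_zero k s 1)
  · exact al_ne_zero k (lt_ne_zero k s 0)

theorem cc_HD (w : GW) (s : Fin 4) : ccw k w s ∈ HD k (fun j => (Pi.single s 4 : Fin 4 → ℤ) j) := by
  unfold ccw; split <;> exact al_lt_HD s _

theorem cc_mem (w : GW) (s : Fin 4) (h : SS k) : ccw k w s ∈ Dn k h := by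
  unfold ccw; split <;> exact al_mem_Dn _ _

theorem cc_inv_mem (w : GW) (s : Fin 4) (σ : Finset GW) (hw : w ∈ σ) : (ccw k w s)⁻¹ ∈ Dn k (fs k σ) := by
  unfold ccw; split
  · exact inv_b_mem s w σ hw ‹_›
  · exact inv_a_mem s w σ hw ‹_›

/-- the local generator of `O(d)` on the chart `w` -/
def PP (k : Type u) [Field k] (d : Fin 4 → ℤ) (w : GW) : LL k := ∏ s, ccw k w s ^ d s

theorem PP_ne (d : Fin 4 → ℤ) (w : GW) : PP k d w ≠ 0 :=
  Finset.prod_ne_zero_iff.mpr fun s _ => zpow_ne_zero _ (cc_ne w s)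

theorem PP_HD (d : Fin 4 → ℤ) (w : GW) : PP k d w ∈ HD k (fun s => 4 * d s) := by
  have h1 := HD_prod (Finset.univ : Finset (Fin 4)) (fun s => ccw k w s ^ d s)
    (fun s j => d s * (Pi.single s 4 : Fin 4 → ℤ) j) fun s _ => HD_zpow (cc_HD w s) (cc_ne w s) (d s)
  have h2 : (fun j => ∑ s : Fin 4, d s * (Pi.single s 4 : Fin 4 → ℤ) j) = fun j => 4 * d j := by
    funext j
    rw [Finset.sum_eq_single j]
    · rw [Pi.single_eq_same]; ring
    · intro b _ hb; rw [Pi.single_eq_of_ne (Ne.symm hb), mul_zero]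
    · intro h; exact absurd (Finset.mem_univ j) h
  rw [h2] at h1; exact h1

theorem PP_mem (d : Fin 4 → ℤ) (w : GW) (σ : Finset GW) (hw : w ∈ σ) : PP k d w ∈ Dn k (fs k σ) :=
  Subalgebra.prod_mem _ fun s _ => zpow_mem_Dn (cc_mem w s _) (cc_inv_mem w s σ hw) _

theorem PP_inv_mem (d : Fin 4 → ℤ) (w : GW) (σ : Finset GW) (hw : w ∈ σ) :
    (PP k d w)⁻¹ ∈ Dn k (fs k σ) := by
  have h1 : (PP k d w)⁻¹ = PP k (-d) w := by
    unfold PP
    rw [← Finset.prod_inv_distrib]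
    refine Finset.prod_congr rfl fun s _ => ?_
    rw [Pi.neg_apply, zpow_neg]
  rw [h1]; exact PP_mem _ _ _ hw

/-- the product of the `a_s ^ d_s` -/
def PA (k : Type u) [Field k] (d : Fin 4 → ℤ) : LL k := ∏ s, al k (lt k s 0) ^ (d s)

theorem PA_ne (d : Fin 4 → ℤ) : PA k d ≠ 0 :=
  Finset.prod_ne_zero_iff.mpr fun s _ => zpow_ne_zero _ (al_ne_zero k (lt_ne_zero k s 0))

theorem uu_coe (d : Fin 4 → ℤ) (w : GW) : (uu k d w : LL k) = PP k d w / PA k d := by
  unfold uu PP PA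
  rw [← Finset.prod_div_distrib]
  rw [IntermediateField.coe_prod]
  refine Finset.prod_congr rfl fun s _ => ?_
  rw [← div_zpow]
  unfold ccw
  split
  · have h2 : ((bet k s ^ d s : K0 k) : LL k) = (bet k s : LL k) ^ d s :=
      map_zpow₀ (algebraMap (K0 k) (LL k)) _ _
    rw [h2, bet_coe]
  · rw [div_self (al_ne_zero k (lt_ne_zero k s 0)), one_zpow]
    rfl

/-- D2 -/
theorem uuAll : InvThm.{u} → UUAll.{u} := by
  intro hI k _ h2 d v w
  have h1 : ((uu k d v / uu k d w : K0 k) : LL k) = PP k d v * (PP k d w)⁻¹ := by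
    have h3 : ((uu k d v / uu k d w : K0 k) : LL k) = (uu k d v : LL k) / (uu k d w : LL k) :=
      map_div₀ (algebraMap (K0 k) (LL k)) _ _
    have := PA_ne (k := k) d
    have := PP_ne (k := k) d w
    rw [h3, uu_coe, uu_coe]
    field_simp
  have hv : v ∈ ({v, w} : Finset GW) := Finset.mem_insert_self _ _
  have hw : w ∈ ({v, w} : Finset GW) := Finset.mem_insert_of_mem (Finset.mem_singleton_self _)
  have h4 := (hI k h2 {v, w} ⟨v, hv⟩ ((uu k d v / uu k d w : K0 k) : LL k)).mp ⟨?_, ?_, ?_⟩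
  · obtain ⟨y, hy, hyx⟩ := h4
    have : y = uu k d v / uu k d w := Subtype.ext hyx
    rw [← this]; exact hy
  · rw [h1]
    have h5 := HD_mul (PP_HD (k := k) d v) (HD_inv (PP_HD (k := k) d w) (PP_ne d w))
    have h6 : (fun s => 4 * d s + -(4 * d s)) = fun _ : Fin 4 => (0 : ℤ) := by funext s; ring
    rw [h6] at h5; exact h5
  · rw [h1]; exact (Dn k _).mul_mem (PP_mem _ _ _ hv) (PP_inv_mem _ _ _ hw)
  · intro a; exact ga_K0 a _ (SetLike.coe_mem _)

/-- D2: the lattices of the line bundles -/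
theorem latHom : InvThm.{u} → LatHom.{u} := by
  intro hI k _ h2 hU ι _ t σ hσ v
  obtain ⟨w, hw⟩ := hσ
  change v ∈ (ZZ k).lineLat (fun e => uu k (t e)) σ ↔ _
  rw [(ZZ k).mem_lineLat (fun e => uu k (t e)) (fun e => uu_ne_zero k (t e)) (fun e => hU (t e)) σ w hw]
  refine forall_congr' fun e => ?_
  have hx : ((v e / uu k (t e) w : K0 k) : LL k) = (v e : LL k) * PA k (t e) * (PP k (t e) w)⁻¹ := by
    have h3 : ((v e / uu k (t e) w : K0 k) : LL k) = (v e : LL k) / (uu k (t e) w : LL k) :=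
      map_div₀ (algebraMap (K0 k) (LL k)) _ _
    have := PA_ne (k := k) (t e)
    have := PP_ne (k := k) (t e) w
    rw [h3, uu_coe]
    field_simp
  have key : v e / uu k (t e) w ∈ (ZZ k).A σ ↔
      ((v e / uu k (t e) w : K0 k) : LL k) ∈ HD k (fun _ => 0) ∧
        ((v e / uu k (t e) w : K0 k) : LL k) ∈ Dn k (fs k σ) := by
    constructor
    · intro h
      have := (hI k h2 σ ⟨w, hw⟩ ((v e / uu k (t e) w : K0 k) : LL k)).mpr ⟨_, h, rfl⟩
      exact ⟨this.1, this.2.1⟩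
    · rintro ⟨h3, h4⟩
      obtain ⟨y, hy, hyx⟩ := (hI k h2 σ ⟨w, hw⟩ ((v e / uu k (t e) w : K0 k) : LL k)).mp
        ⟨h3, h4, fun a => ga_K0 a _ (SetLike.coe_mem _)⟩
      have : y = v e / uu k (t e) w := Subtype.ext hyx
      rw [← this]; exact hy
  change _ ↔ (v e : LL k) * PA k (t e) ∈ HD k (fun s => 4 * t e s) ∧
    (v e : LL k) * PA k (t e) ∈ Dn k (fs k σ)
  rw [key, hx]
  have hP := PP_ne (k := k) (t e) w
  constructor
  · rintro ⟨h3, h4⟩
    have h5 : (v e : LL k) * PA k (t e) = (v e : LL k) * PA k (t e) * (PP k (t e) w)⁻¹ * PP k (t e) w := by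
      rw [mul_assoc, inv_mul_cancel₀ hP, mul_one]
    rw [h5]
    constructor
    · have h6 := HD_mul h3 (PP_HD (k := k) (t e) w)
      have h7 : (fun s => (0 : ℤ) + 4 * t e s) = fun s => 4 * t e s := by funext s; ring
      rw [h7] at h6; exact h6
    · exact (Dn k _).mul_mem h4 (PP_mem _ _ _ hw)
  · rintro ⟨h3, h4⟩
    constructor
    · have h6 := HD_mul h3 (HD_inv (PP_HD (k := k) (t e) w) hP)
      have h7 : (fun s => 4 * t e s + -(4 * t e s)) = fun _ : Fin 4 => (0 : ℤ) := by funext s; ring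
      rw [h7] at h6; exact h6
    · exact (Dn k _).mul_mem h4 (PP_inv_mem _ _ _ hw)

end

end Pool.Agent.Helper54.RZ
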